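import Pool.Agent.MP38d52fLib.LogConv
set_option autoImplicit false

open Real Set Filter Topology

namespace Pool.Agent.MP38d52fLib

theorem ml_real (a b t : ℝ) :
    (∑' k : ℕ, (-(t : ℂ)) ^ k / Complex.Gamma ((a : ℂ) * k + b)) = ((MLr a b (-t) : ℝ) : ℂ) := by
  unfold MLr
  rw [Complex.ofReal_tsum]
  apply tsum_congr
  intro k
  have h1 : (a : ℂ) * k + b = ((a * k + b : ℝ) : ℂ) := by push_cast; ring
  rw [h1, Complex.Gamma_ofReal]
  push_cast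
  ring

theorem f_eq_fr (α t : ℝ) :
    ‖∑' k : ℕ, (-(t : ℂ)) ^ k / Complex.Gamma (((2 * α : ℝ) : ℂ) * k + ((1 : ℝ) : ℂ))‖ ^ 2
      + t * ‖∑' k : ℕ, (-(t : ℂ)) ^ k / Complex.Gamma (((2 * α : ℝ) : ℂ) * k + ((1 + α : ℝ) : ℂ))‖ ^ 2
      = fr (2 * α) t := by
  rw [ml_real, ml_real]
  unfold fr
  rw [Complex.norm_real, Complex.norm_real, Real.norm_eq_abs, Real.norm_eq_abs, sq_abs, sq_abs]
  have : 1 + 2 * α / 2 = 1 + α := by ring
  rw [this]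

end Pool.Agent.MP38d52fLib
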