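import Pool.Agent.MP38d52fLib.Kernel
set_option autoImplicit false

open Real Set MeasureTheory

namespace Pool.Agent.MP38d52fLib

/-- `(-1)^m` times the `m`-th forward difference. -/
noncomputable def DD (m : ℕ) (f : ℝ → ℝ) (t h : ℝ) : ℝ :=
  ∑ k ∈ Finset.range (m + 1), (-1) ^ k * (m.choose k : ℝ) * f (t + k * h)

theorem DD_exp (m : ℕ) (x t h : ℝ) :
    DD m (fun s => exp (-(s * x))) t h = exp (-(t * x)) * (1 - exp (-(h * x))) ^ m := by
  unfold DD
  have e : (1 - exp (-(h * x))) ^ m = (-exp (-(h * x)) + 1) ^ m := by ring_nf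
  rw [e, add_pow, Finset.mul_sum]
  apply Finset.sum_congr rfl
  intro k _
  have e2 : exp (-((t + k * h) * x)) = exp (-(t * x)) * exp (-(h * x)) ^ k := by
    rw [← exp_nat_mul, ← exp_add]
    ring_nf
  beta_reduce
  rw [e2, one_pow, mul_one, neg_pow]
  ring

theorem DD_exp_nonneg (m : ℕ) {x t h : ℝ} (hx : 0 ≤ x) (hh : 0 ≤ h) :
    0 ≤ DD m (fun s => exp (-(s * x))) t h := by
  rw [DD_exp]
  have : exp (-(h * x)) ≤ 1 := by
    rw [exp_le_one_iff]
    have := mul_nonneg hh hx
    linarith
  have : 0 ≤ 1 - exp (-(h * x)) := by linarith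
  positivity

theorem DD_congr (m : ℕ) {f g : ℝ → ℝ} {t h : ℝ} (ht : 0 < t) (hh : 0 ≤ h)
    (hfg : ∀ s, 0 < s → f s = g s) : DD m f t h = DD m g t h := by
  unfold DD
  apply Finset.sum_congr rfl
  intro k _
  rw [hfg]
  positivity

/-- one half of the kernel -/
theorem DD_part_nonneg (m : ℕ) {a b t h : ℝ} (ha : 0 < a) (hb : 0 < b) (hh : 0 ≤ h) :
    0 ≤ DD m (fun s => ∫ u in (0:ℝ)..√b, √a / (a + u ^ 2) * exp (-(s * (b - u ^ 2)))) t h := by
  have hne : ∀ u : ℝ, a + u ^ 2 ≠ 0 := fun u => by positivity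
  have h1 : DD m (fun s => ∫ u in (0:ℝ)..√b, √a / (a + u ^ 2) * exp (-(s * (b - u ^ 2)))) t h
      = ∫ u in (0:ℝ)..√b, √a / (a + u ^ 2) * DD m (fun s => exp (-(s * (b - u ^ 2)))) t h := by
    unfold DD
    simp_rw [← intervalIntegral.integral_const_mul, Finset.mul_sum]
    rw [intervalIntegral.integral_finsetSum]
    · apply Finset.sum_congr rfl
      intro k _
      apply intervalIntegral.integral_congr
      intro u _
      simp only []
      ring
    · intro k _
      apply Continuous.intervalIntegrable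
      fun_prop (disch := exact hne _)
  rw [h1]
  apply intervalIntegral.integral_nonneg (Real.sqrt_nonneg b)
  intro u hu
  have hu2 : u ^ 2 ≤ b := by
    have : u ^ 2 ≤ √b ^ 2 := by
      have := hu.1
      have := hu.2
      gcongr
    rwa [Real.sq_sqrt hb.le] at this
  have := DD_exp_nonneg m (x := b - u ^ 2) (t := t) (by linarith) hh
  positivity

theorem DD_kernel_nonneg (m : ℕ) {a b t h : ℝ} (ha : 0 < a) (hb : 0 < b) (ht : 0 < t) (hh : 0 ≤ h) :
    0 ≤ DD m (fun s => exp (-((a + b) * s)) + qd (a * s) * qd (b * s)) t h := by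
  rw [DD_congr m ht hh (g := fun s => 2 / π * ((∫ u in (0:ℝ)..√b, √a / (a + u ^ 2) * exp (-(s * (b - u ^ 2))))
        + ∫ u in (0:ℝ)..√a, √b / (b + u ^ 2) * exp (-(s * (a - u ^ 2)))))
      (fun s hs => kernel_identity ha hb hs.le)]
  have h1 := DD_part_nonneg m (t := t) ha hb hh
  have h2 := DD_part_nonneg m (t := t) hb ha hh
  have e : DD m (fun s => 2 / π * ((∫ u in (0:ℝ)..√b, √a / (a + u ^ 2) * exp (-(s * (b - u ^ 2))))
        + ∫ u in (0:ℝ)..√a, √b / (b + u ^ 2) * exp (-(s * (a - u ^ 2))))) t h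
      = 2 / π * (DD m (fun s => ∫ u in (0:ℝ)..√b, √a / (a + u ^ 2) * exp (-(s * (b - u ^ 2)))) t h
        + DD m (fun s => ∫ u in (0:ℝ)..√a, √b / (b + u ^ 2) * exp (-(s * (a - u ^ 2)))) t h) := by
    unfold DD
    rw [← Finset.sum_add_distrib, Finset.mul_sum]
    apply Finset.sum_congr rfl
    intro k _
    ring
  rw [e]
  have := pi_pos
  positivity

theorem II_nonneg {x : ℝ} : 0 ≤ II x := by
  unfold II
  exact intervalIntegral.integral_nonneg (Real.sqrt_nonneg x) (fun u _ => (exp_pos _).le)

theorem II_le {x : ℝ} (hx : 0 ≤ x) : II x ≤ exp x := by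
  unfold II
  rcases le_total x 1 with h | h
  · have h1 : ∫ s in (0:ℝ)..√x, exp (s ^ 2) ≤ ∫ _s in (0:ℝ)..√x, exp x := by
      apply intervalIntegral.integral_mono_on (Real.sqrt_nonneg x)
        (cont_e2.intervalIntegrable _ _) intervalIntegrable_const
      intro s hs
      apply exp_le_exp.mpr
      have : s ^ 2 ≤ √x ^ 2 := by
        have := hs.1
        have := hs.2
        gcongr
      rwa [Real.sq_sqrt hx] at this
    rw [intervalIntegral.integral_const, smul_eq_mul, sub_zero] at h1
    have h2 : √x ≤ 1 := by rw [Real.sqrt_le_one]; exact h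
    have := exp_pos x
    nlinarith
  · have hs1 : 1 ≤ √x := Real.one_le_sqrt.mpr h
    have h1 : ∫ s in (0:ℝ)..√x, exp (s ^ 2) ≤ ∫ s in (0:ℝ)..√x, exp (s * √x) := by
      apply intervalIntegral.integral_mono_on (Real.sqrt_nonneg x)
        (cont_e2.intervalIntegrable _ _)
        ((by fun_prop : Continuous fun s : ℝ => exp (s * √x)).intervalIntegrable _ _)
      intro s hs
      apply exp_le_exp.mpr
      have := hs.1
      have := hs.2
      nlinarith
    rw [inner_integral _ _ (by linarith), Real.mul_self_sqrt hx] at h1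
    have h2 : (exp x - 1) / √x ≤ exp x := by
      rw [div_le_iff₀ (by linarith)]
      have := exp_pos x
      nlinarith
    linarith

theorem qd_nonneg (x : ℝ) : 0 ≤ qd x := by
  unfold qd
  have := II_nonneg (x := x)
  positivity

theorem qd_le {x : ℝ} (hx : 0 ≤ x) : qd x ≤ 2 / √π := by
  unfold qd
  have h1 := II_le hx
  have h2 : exp (-x) * exp x = 1 := by rw [← exp_add]; simp
  have h3 : exp (-x) * II x ≤ exp (-x) * exp x := by gcongr
  rw [h2] at h3
  calc 2 / √π * exp (-x) * II x = 2 / √π * (exp (-x) * II x) := by ring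
    _ ≤ 2 / √π * 1 := by gcongr
    _ = 2 / √π := mul_one _

theorem qd_cont : Continuous qd := by
  unfold qd
  have := II_cont
  fun_prop

section mix

variable (μ : Measure ℝ)

noncomputable def LL (t : ℝ) : ℝ := ∫ a, exp (-(a * t)) ∂μ
noncomputable def QQ (t : ℝ) : ℝ := ∫ a, qd (a * t) ∂μ

variable {μ} [IsFiniteMeasure μ] (hμ : ∀ᵐ a ∂μ, 0 < a)
include hμ

theorem int_LL {t : ℝ} (ht : 0 < t) : Integrable (fun a => exp (-(a * t))) μ := by
  apply Integrable.of_bound (C := 1)
  · exact (by fun_prop : Continuous fun a : ℝ => exp (-(a * t))).aestronglyMeasurable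
  · filter_upwards [hμ] with a ha
    rw [Real.norm_eq_abs, abs_of_pos (exp_pos _), exp_le_one_iff]
    have := mul_pos ha ht
    linarith

theorem int_QQ {t : ℝ} (ht : 0 < t) : Integrable (fun a => qd (a * t)) μ := by
  apply Integrable.of_bound (C := 2 / √π)
  · exact (qd_cont.comp (by fun_prop : Continuous fun a : ℝ => a * t)).aestronglyMeasurable
  · filter_upwards [hμ] with a ha
    rw [Real.norm_eq_abs, abs_of_nonneg (qd_nonneg _)]
    exact qd_le (by positivity)

theorem mix_one (m : ℕ) {a t h : ℝ} (ha : 0 < a) (ht : 0 < t) (hh : 0 ≤ h) :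
    0 ≤ DD m (fun s => exp (-(a * s)) * LL μ s + qd (a * s) * QQ μ s) t h := by
  have h1 : DD m (fun s => exp (-(a * s)) * LL μ s + qd (a * s) * QQ μ s) t h
      = ∫ b, DD m (fun s => exp (-((a + b) * s)) + qd (a * s) * qd (b * s)) t h ∂μ := by
    unfold DD
    rw [integral_finsetSum]
    · apply Finset.sum_congr rfl
      intro k _
      have hpos : 0 < t + k * h := by positivity
      rw [integral_const_mul]
      congr 1
      have e : ∀ b : ℝ, exp (-((a + b) * (t + k * h)))
          = exp (-(a * (t + k * h))) * exp (-(b * (t + k * h))) := by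
        intro b; rw [← exp_add]; ring_nf
      simp_rw [e]
      rw [integral_add, integral_const_mul, integral_const_mul]
      · rfl
      · exact (int_LL hμ hpos).const_mul _
      · exact (int_QQ hμ hpos).const_mul _
    · intro k _
      have hpos : 0 < t + k * h := by positivity
      apply Integrable.const_mul
      have e : (fun b : ℝ => exp (-((a + b) * (t + k * h))) + qd (a * (t + k * h)) * qd (b * (t + k * h)))
          = fun b => exp (-(a * (t + k * h))) * exp (-(b * (t + k * h)))
            + qd (a * (t + k * h)) * qd (b * (t + k * h)) := by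
        funext b
        congr 1
        rw [← exp_add]; ring_nf
      rw [e]
      exact ((int_LL hμ hpos).const_mul _).add ((int_QQ hμ hpos).const_mul _)
  rw [h1]
  apply integral_nonneg_of_ae
  filter_upwards [hμ] with b hb
  exact DD_kernel_nonneg m ha hb ht hh

theorem mix_two (m : ℕ) {t h : ℝ} (ht : 0 < t) (hh : 0 ≤ h) :
    0 ≤ DD m (fun s => LL μ s ^ 2 + QQ μ s ^ 2) t h := by
  have h1 : DD m (fun s => LL μ s ^ 2 + QQ μ s ^ 2) t h
      = ∫ a, DD m (fun s => exp (-(a * s)) * LL μ s + qd (a * s) * QQ μ s) t h ∂μ := by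
    unfold DD
    rw [integral_finsetSum]
    · apply Finset.sum_congr rfl
      intro k _
      have hpos : 0 < t + k * h := by positivity
      rw [integral_const_mul]
      congr 1
      rw [integral_add, integral_mul_const, integral_mul_const]
      · beta_reduce
        rw [sq, sq]; rfl
      · exact (int_LL hμ hpos).mul_const _
      · exact (int_QQ hμ hpos).mul_const _
    · intro k _
      have hpos : 0 < t + k * h := by positivity
      apply Integrable.const_mul
      exact ((int_LL hμ hpos).mul_const _).add ((int_QQ hμ hpos).mul_const _)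
  rw [h1]
  apply integral_nonneg_of_ae
  filter_upwards [hμ] with a ha
  exact mix_one hμ m ha ht hh

end mix

end Pool.Agent.MP38d52fLib
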