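import Pool.Agent.MP38d52fLib.Smooth
set_option autoImplicit false

open Real Set MeasureTheory Filter Topology
open scoped ContDiff

namespace Pool.Agent.MP38d52fLib

/-- A finite linear functional with coefficients `c` and nodes `s`. -/
noncomputable def GG (S : Finset ℕ) (c s : ℕ → ℝ) (f : ℝ → ℝ) : ℝ :=
  ∑ k ∈ S, c k * f (s k)

variable {S : Finset ℕ} {c s : ℕ → ℝ}

theorem GG_congr {f g : ℝ → ℝ} (hs : ∀ k ∈ S, 0 < s k)
    (hfg : ∀ t, 0 < t → f t = g t) : GG S c s f = GG S c s g := by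
  unfold GG
  apply Finset.sum_congr rfl
  intro k hk
  rw [hfg _ (hs k hk)]

theorem GG_part_nonneg (hc : ∀ x, 0 ≤ x → 0 ≤ GG S c s (fun t => exp (-(t * x))))
    {a b : ℝ} (ha : 0 < a) (hb : 0 < b) :
    0 ≤ GG S c s (fun t => ∫ u in (0:ℝ)..√b, √a / (a + u ^ 2) * exp (-(t * (b - u ^ 2)))) := by
  have hne : ∀ u : ℝ, a + u ^ 2 ≠ 0 := fun u => by positivity
  have h1 : GG S c s (fun t => ∫ u in (0:ℝ)..√b, √a / (a + u ^ 2) * exp (-(t * (b - u ^ 2))))
      = ∫ u in (0:ℝ)..√b, √a / (a + u ^ 2) * GG S c s (fun t => exp (-(t * (b - u ^ 2)))) := by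
    unfold GG
    simp_rw [← intervalIntegral.integral_const_mul, Finset.mul_sum]
    rw [intervalIntegral.integral_finsetSum]
    · apply Finset.sum_congr rfl
      intro k _
      apply intervalIntegral.integral_congr
      intro u _
      simp only []
      ring
    · intro k _
      apply Continuous.intervalIntegrable
      fun_prop (disch := exact hne _)
  rw [h1]
  apply intervalIntegral.integral_nonneg (Real.sqrt_nonneg b)
  intro u hu
  have hu2 : u ^ 2 ≤ b := by
    have : u ^ 2 ≤ √b ^ 2 := by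
      have := hu.1
      have := hu.2
      gcongr
    rwa [Real.sq_sqrt hb.le] at this
  have := hc (b - u ^ 2) (by linarith)
  positivity

theorem GG_kernel_nonneg (hs : ∀ k ∈ S, 0 < s k)
    (hc : ∀ x, 0 ≤ x → 0 ≤ GG S c s (fun t => exp (-(t * x))))
    {a b : ℝ} (ha : 0 < a) (hb : 0 < b) :
    0 ≤ GG S c s (fun t => exp (-((a + b) * t)) + qd (a * t) * qd (b * t)) := by
  rw [GG_congr hs (g := fun t => 2 / π * ((∫ u in (0:ℝ)..√b, √a / (a + u ^ 2) * exp (-(t * (b - u ^ 2))))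
        + ∫ u in (0:ℝ)..√a, √b / (b + u ^ 2) * exp (-(t * (a - u ^ 2)))))
      (fun t ht => kernel_identity ha hb ht.le)]
  have h1 := GG_part_nonneg hc ha hb
  have h2 := GG_part_nonneg hc hb ha
  have e : GG S c s (fun t => 2 / π * ((∫ u in (0:ℝ)..√b, √a / (a + u ^ 2) * exp (-(t * (b - u ^ 2))))
        + ∫ u in (0:ℝ)..√a, √b / (b + u ^ 2) * exp (-(t * (a - u ^ 2)))))
      = 2 / π * (GG S c s (fun t => ∫ u in (0:ℝ)..√b, √a / (a + u ^ 2) * exp (-(t * (b - u ^ 2))))
        + GG S c s (fun t => ∫ u in (0:ℝ)..√a, √b / (b + u ^ 2) * exp (-(t * (a - u ^ 2))))) := by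
    unfold GG
    rw [← Finset.sum_add_distrib, Finset.mul_sum]
    apply Finset.sum_congr rfl
    intro k _
    ring
  rw [e]
  have := pi_pos
  positivity

section mix

variable {μ : Measure ℝ} [IsFiniteMeasure μ] (hμ : ∀ᵐ a ∂μ, 0 < a)
include hμ

theorem GG_mix_one (hs : ∀ k ∈ S, 0 < s k)
    (hc : ∀ x, 0 ≤ x → 0 ≤ GG S c s (fun t => exp (-(t * x))))
    {a : ℝ} (ha : 0 < a) :
    0 ≤ GG S c s (fun t => exp (-(a * t)) * LL μ t + qd (a * t) * QQ μ t) := by
  have h1 : GG S c s (fun t => exp (-(a * t)) * LL μ t + qd (a * t) * QQ μ t)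
      = ∫ b, GG S c s (fun t => exp (-((a + b) * t)) + qd (a * t) * qd (b * t)) ∂μ := by
    unfold GG
    rw [integral_finsetSum]
    · apply Finset.sum_congr rfl
      intro k hk
      have hpos : 0 < s k := hs k hk
      rw [integral_const_mul]
      congr 1
      have e : ∀ b : ℝ, exp (-((a + b) * (s k)))
          = exp (-(a * (s k))) * exp (-(b * (s k))) := by
        intro b; rw [← exp_add]; ring_nf
      simp_rw [e]
      rw [integral_add, integral_const_mul, integral_const_mul]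
      · rfl
      · exact (int_LL hμ hpos).const_mul _
      · exact (int_QQ hμ hpos).const_mul _
    · intro k hk
      have hpos : 0 < s k := hs k hk
      apply Integrable.const_mul
      have e : (fun b : ℝ => exp (-((a + b) * (s k))) + qd (a * (s k)) * qd (b * (s k)))
          = fun b => exp (-(a * (s k))) * exp (-(b * (s k)))
            + qd (a * (s k)) * qd (b * (s k)) := by
        funext b
        congr 1
        rw [← exp_add]; ring_nf
      rw [e]
      exact ((int_LL hμ hpos).const_mul _).add ((int_QQ hμ hpos).const_mul _)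
  rw [h1]
  apply integral_nonneg_of_ae
  filter_upwards [hμ] with b hb
  exact GG_kernel_nonneg hs hc ha hb

theorem GG_mix_two (hs : ∀ k ∈ S, 0 < s k)
    (hc : ∀ x, 0 ≤ x → 0 ≤ GG S c s (fun t => exp (-(t * x)))) :
    0 ≤ GG S c s (fun t => LL μ t ^ 2 + QQ μ t ^ 2) := by
  have h1 : GG S c s (fun t => LL μ t ^ 2 + QQ μ t ^ 2)
      = ∫ a, GG S c s (fun t => exp (-(a * t)) * LL μ t + qd (a * t) * QQ μ t) ∂μ := by
    unfold GG
    rw [integral_finsetSum]
    · apply Finset.sum_congr rfl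
      intro k hk
      have hpos : 0 < s k := hs k hk
      rw [integral_const_mul]
      congr 1
      rw [integral_add, integral_mul_const, integral_mul_const]
      · beta_reduce
        rw [sq, sq]; rfl
      · exact (int_LL hμ hpos).mul_const _
      · exact (int_QQ hμ hpos).mul_const _
    · intro k hk
      have hpos : 0 < s k := hs k hk
      apply Integrable.const_mul
      exact ((int_LL hμ hpos).mul_const _).add ((int_QQ hμ hpos).mul_const _)
  rw [h1]
  apply integral_nonneg_of_ae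
  filter_upwards [hμ] with a ha
  exact GG_mix_one hμ hs hc ha

end mix

/-- the real form of the function of the problem -/
noncomputable def fr (γ t : ℝ) : ℝ := MLr γ 1 (-t) ^ 2 + t * MLr γ (1 + γ / 2) (-t) ^ 2

theorem GG_fr_nonneg {γ : ℝ} (h0 : 0 < γ) (h1 : γ ≤ 1) (hs : ∀ k ∈ S, 0 < s k)
    (hc : ∀ x, 0 ≤ x → 0 ≤ GG S c s (fun t => exp (-(t * x)))) :
    0 ≤ GG S c s (fr γ) := by
  have hlim : Tendsto (fun n : ℕ => GG S c s (fun t => LL (mu γ n ((n : ℝ) ^ γ)) t ^ 2
      + QQ (mu γ n ((n : ℝ) ^ γ)) t ^ 2)) atTop (𝓝 (GG S c s (fr γ))) := by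
    unfold GG
    apply tendsto_finsetSum
    intro k hk
    have hpos := hs k hk
    apply Tendsto.const_mul
    have e1 : fr γ (s k) = (∑' l : ℕ, (-(s k)) ^ l * (Gamma (γ * l + 1))⁻¹) ^ 2
        + (√(s k) * ∑' l : ℕ, (-(s k)) ^ l * (Gamma (γ * l + (1 + γ / 2)))⁻¹) ^ 2 := by
      unfold fr MLr
      rw [mul_pow, Real.sq_sqrt hpos.le]
      congr 2
      · congr 1
        funext l
        ring
      · congr 2
        funext l
        ring
    rw [e1]
    exact ((LL_tendsto h0 h1 hpos).pow 2).add ((QQ_tendsto h0 h1 hpos).pow 2)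
  apply ge_of_tendsto hlim
  filter_upwards [eventually_gt_atTop 0] with n hn
  have hn' : (0 : ℝ) < n := by exact_mod_cast hn
  have : Fact (0 < (n : ℝ) ^ γ) := ⟨by positivity⟩
  exact GG_mix_two (mu_pos γ n _) hs hc

theorem fr_contDiff {γ : ℝ} (h0 : 0 < γ) (h1 : γ ≤ 1) : ContDiff ℝ ∞ (fr γ) := by
  have a1 : ContDiff ℝ ∞ (fun t : ℝ => MLr γ 1 (-t)) :=
    (MLr_contDiff h0 h1 (le_refl 1)).comp contDiff_neg
  have a2 : ContDiff ℝ ∞ (fun t : ℝ => MLr γ (1 + γ / 2) (-t)) :=
    (MLr_contDiff h0 h1 (by linarith)).comp contDiff_neg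
  unfold fr
  exact (a1.pow 2).add (contDiff_id.mul (a2.pow 2))

theorem DD_fr_nonneg {γ : ℝ} (h0 : 0 < γ) (h1 : γ ≤ 1) (m : ℕ) (t h : ℝ) (ht : 0 < t)
    (hh : 0 < h) : 0 ≤ DD m (fr γ) t h := by
  have := GG_fr_nonneg (S := Finset.range (m + 1)) (c := fun k => (-1) ^ k * (m.choose k : ℝ))
    (s := fun k => t + k * h) h0 h1 (fun k _ => by positivity)
    (fun x hx => DD_exp_nonneg m (t := t) hx hh.le)
  exact this

theorem fr_cm {γ : ℝ} (h0 : 0 < γ) (h1 : γ ≤ 1) (m : ℕ) {t : ℝ} (ht : 0 < t) :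
    0 ≤ (-1) ^ m * iteratedDeriv m (fr γ) t :=
  deriv_sign (fr_contDiff h0 h1) (DD_fr_nonneg h0 h1) m ht

end Pool.Agent.MP38d52fLib
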