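import Mathlib
set_option autoImplicit false

open Real Set intervalIntegral

namespace Pool.Agent.MP38d52fLib

/-- `∫_0^{√x} e^{s²} ds` -/
noncomputable def II (x : ℝ) : ℝ := ∫ s in (0:ℝ)..√x, exp (s ^ 2)

/-- Dawson type function `(2/√π) e^{-x} ∫_0^{√x} e^{s²} ds` -/
noncomputable def qd (x : ℝ) : ℝ := 2 / √π * exp (-x) * II x

/-- `∫_0^{√b} e^{τ u²} du` -/
noncomputable def PP (b τ : ℝ) : ℝ := ∫ u in (0:ℝ)..√b, exp (τ * u ^ 2)

theorem cont_e2 : Continuous (fun s : ℝ => exp (s ^ 2)) := by fun_prop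

theorem II_zero : II 0 = 0 := by simp [II]

theorem II_cont : Continuous II := by
  have h : Continuous (fun y : ℝ => ∫ s in (0:ℝ)..y, exp (s ^ 2)) :=
    intervalIntegral.continuous_primitive (fun a b => cont_e2.intervalIntegrable a b) 0
  exact h.comp Real.continuous_sqrt

theorem hasDerivAt_II {x : ℝ} (hx : 0 < x) : HasDerivAt II (exp x / (2 * √x)) x := by
  have h1 : HasDerivAt (fun y : ℝ => ∫ s in (0:ℝ)..y, exp (s ^ 2)) (exp (√x ^ 2)) (√x) :=
    intervalIntegral.integral_hasDerivAt_right (cont_e2.intervalIntegrable _ _)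
      (cont_e2.stronglyMeasurableAtFilter _ _) cont_e2.continuousAt
  have h2 := (Real.hasDerivAt_sqrt hx.ne')
  have h3 := h1.comp x h2
  rw [Real.sq_sqrt hx.le] at h3
  have h4 : HasDerivAt II _ x := h3
  refine h4.congr_deriv ?_
  ring

theorem PP_cont (b : ℝ) : Continuous (PP b) := by
  unfold PP
  apply intervalIntegral.continuous_parametric_intervalIntegral_of_continuous'
  simp only [Function.uncurry_def]
  fun_prop

theorem II_eq {b τ : ℝ} (hτ : 0 < τ) : II (b * τ) = √τ * PP b τ := by
  unfold II PP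
  have hs : 0 < √τ := Real.sqrt_pos.mpr hτ
  have h := intervalIntegral.mul_integral_comp_mul_left (a := (0:ℝ)) (b := √b) (f := fun s : ℝ => exp (s ^ 2)) √τ
  rw [mul_zero] at h
  have e : √τ * √b = √(b * τ) := by rw [mul_comm b τ, Real.sqrt_mul hτ.le]
  rw [e] at h
  rw [← h]
  congr 1
  apply intervalIntegral.integral_congr
  intro u _
  simp only []
  rw [mul_pow, Real.sq_sqrt hτ.le]

theorem deriv_prod {a b τ : ℝ} (ha : 0 < a) (hb : 0 < b) (hτ : 0 < τ) :
    HasDerivAt (fun t => II (a * t) * II (b * t))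
      (1 / 2 * (√a * exp (a * τ) * PP b τ + √b * exp (b * τ) * PP a τ)) τ := by
  have h1 : ∀ c : ℝ, 0 < c → HasDerivAt (fun t => II (c * t)) (√c * exp (c * τ) / (2 * √τ)) τ := by
    intro c hc
    have h2 := hasDerivAt_II (x := c * τ) (by positivity)
    have h3 : HasDerivAt (fun t : ℝ => c * t) c τ := by simpa using (hasDerivAt_id τ).const_mul c
    have h4 := h2.comp τ h3
    have h5 : HasDerivAt (fun t => II (c * t)) _ τ := h4
    refine h5.congr_deriv ?_
    rw [Real.sqrt_mul hc.le]
    have hcs : 0 < √c := Real.sqrt_pos.mpr hc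
    have hts : 0 < √τ := Real.sqrt_pos.mpr hτ
    field_simp
    rw [Real.sq_sqrt hc.le]
  have h6 := (h1 a ha).fun_mul (h1 b hb)
  refine h6.congr_deriv ?_
  rw [II_eq hτ, II_eq hτ]
  have hts : 0 < √τ := Real.sqrt_pos.mpr hτ
  field_simp

theorem prod_integral {a b t : ℝ} (ha : 0 < a) (hb : 0 < b) (ht : 0 ≤ t) :
    II (a * t) * II (b * t)
      = ∫ τ in (0:ℝ)..t, 1 / 2 * (√a * exp (a * τ) * PP b τ + √b * exp (b * τ) * PP a τ) := by
  have hP1 := PP_cont a
  have hP2 := PP_cont b
  have hI := II_cont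
  have h := intervalIntegral.integral_eq_sub_of_hasDerivAt_of_le (a := 0) (b := t)
    (f := fun t => II (a * t) * II (b * t))
    (f' := fun τ => 1 / 2 * (√a * exp (a * τ) * PP b τ + √b * exp (b * τ) * PP a τ)) ht
    (by fun_prop) (fun x hx => deriv_prod ha hb hx.1)
    ((by fun_prop : Continuous _).intervalIntegrable _ _)
  rw [h]
  simp [II_zero]

theorem inner_integral (c t : ℝ) (hc : 0 < c) :
    ∫ τ in (0:ℝ)..t, exp (τ * c) = (exp (t * c) - 1) / c := by
  have h := intervalIntegral.integral_eq_sub_of_hasDerivAt (a := 0) (b := t)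
    (f := fun τ => exp (τ * c) / c) (f' := fun τ => exp (τ * c)) (fun x _ => by
      have h1 : HasDerivAt (fun τ : ℝ => τ * c) c x := by simpa using (hasDerivAt_id x).mul_const c
      have h2 := (h1.exp).div_const c
      refine h2.congr_deriv ?_
      field_simp)
    ((by fun_prop : Continuous fun τ : ℝ => exp (τ * c)).intervalIntegrable _ _)
  rw [h]
  simp
  ring

theorem swap_part {a b t : ℝ} (ha : 0 < a) :
    ∫ u in (0:ℝ)..√b, √a * exp (t * (a + u ^ 2)) / (a + u ^ 2)
      = (∫ τ in (0:ℝ)..t, √a * exp (a * τ) * PP b τ) + ∫ u in (0:ℝ)..√b, √a / (a + u ^ 2) := by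
  have hne : ∀ u : ℝ, a + u ^ 2 ≠ 0 := fun u => by positivity
  have h1 : ∫ τ in (0:ℝ)..t, √a * exp (a * τ) * PP b τ
      = ∫ τ in (0:ℝ)..t, ∫ u in (0:ℝ)..√b, √a * exp (τ * (a + u ^ 2)) := by
    apply intervalIntegral.integral_congr
    intro τ _
    simp only []
    unfold PP
    rw [← intervalIntegral.integral_const_mul]
    apply intervalIntegral.integral_congr
    intro u _
    simp only []
    rw [mul_assoc, ← exp_add]
    ring_nf
  rw [h1, MeasureTheory.intervalIntegral_intervalIntegral_swap]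
  · rw [← intervalIntegral.integral_add]
    · apply intervalIntegral.integral_congr
      intro u _
      simp only []
      rw [intervalIntegral.integral_const_mul, inner_integral _ _ (by positivity)]
      have := hne u
      field_simp
      ring
    · have h2 : (fun u : ℝ => ∫ τ in (0:ℝ)..t, √a * exp (τ * (a + u ^ 2)))
          = fun u : ℝ => √a * ((exp (t * (a + u ^ 2)) - 1) / (a + u ^ 2)) := by
        funext u
        rw [intervalIntegral.integral_const_mul, inner_integral _ _ (by positivity)]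
      rw [h2]
      apply Continuous.intervalIntegrable
      fun_prop (disch := exact hne _)
    · apply Continuous.intervalIntegrable
      fun_prop (disch := exact hne _)
  · have hc : Continuous (Function.uncurry fun (x y : ℝ) => √a * exp (x * (a + y ^ 2))) := by
      simp only [Function.uncurry_def]; fun_prop
    apply (hc.continuousOn.integrableOn_compact (isCompact_uIcc.prod isCompact_uIcc)).mono_set
    exact Set.prod_mono uIoc_subset_uIcc uIoc_subset_uIcc

theorem arctan_part {a b : ℝ} (ha : 0 < a) :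
    ∫ u in (0:ℝ)..√b, √a / (a + u ^ 2) = arctan (√b / √a) := by
  have hs : 0 < √a := Real.sqrt_pos.mpr ha
  have hne : ∀ u : ℝ, a + u ^ 2 ≠ 0 := fun u => by positivity
  have h := intervalIntegral.integral_eq_sub_of_hasDerivAt (a := 0) (b := √b)
    (f := fun u => arctan (u / √a)) (f' := fun u => √a / (a + u ^ 2)) (fun x _ => by
      have h1 : HasDerivAt (fun u : ℝ => u / √a) (1 / √a) x := (hasDerivAt_id x).div_const _
      have h2 := h1.arctan
      refine h2.congr_deriv ?_
      have := hne x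
      rw [div_pow, Real.sq_sqrt ha.le]
      field_simp
      rw [Real.sq_sqrt ha.le])
    (Continuous.intervalIntegrable (by fun_prop (disch := exact hne _)) _ _)
  rw [h]
  simp

/-- Main kernel identity: `e^{-(a+b)t} + q(at) q(bt)` is an explicit Laplace transform. -/
theorem kernel_identity {a b t : ℝ} (ha : 0 < a) (hb : 0 < b) (ht : 0 ≤ t) :
    exp (-((a + b) * t)) + qd (a * t) * qd (b * t)
      = 2 / π * ((∫ u in (0:ℝ)..√b, √a / (a + u ^ 2) * exp (-(t * (b - u ^ 2))))
        + ∫ u in (0:ℝ)..√a, √b / (b + u ^ 2) * exp (-(t * (a - u ^ 2)))) := by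
  have h1 := prod_integral ha hb ht
  have hP1 := PP_cont a
  have hP2 := PP_cont b
  have h2 := swap_part (a := a) (b := b) (t := t) ha
  have h3 := swap_part (a := b) (b := a) (t := t) hb
  rw [arctan_part ha] at h2
  rw [arctan_part hb] at h3
  have h4 : arctan (√a / √b) = π / 2 - arctan (√b / √a) := by
    have : √a / √b = (√b / √a)⁻¹ := by rw [inv_div]
    rw [this, arctan_inv_of_pos]
    have := Real.sqrt_pos.mpr ha
    have := Real.sqrt_pos.mpr hb
    positivity
  have h5 : ∫ τ in (0:ℝ)..t, 1 / 2 * (√a * exp (a * τ) * PP b τ + √b * exp (b * τ) * PP a τ)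
      = 1 / 2 * ((∫ τ in (0:ℝ)..t, √a * exp (a * τ) * PP b τ)
        + ∫ τ in (0:ℝ)..t, √b * exp (b * τ) * PP a τ) := by
    rw [intervalIntegral.integral_const_mul, intervalIntegral.integral_add]
    · exact (by fun_prop : Continuous _).intervalIntegrable _ _
    · exact (by fun_prop : Continuous _).intervalIntegrable _ _
  rw [h5] at h1
  have h6 : ∫ u in (0:ℝ)..√b, √a / (a + u ^ 2) * exp (-(t * (b - u ^ 2)))
      = exp (-((a + b) * t)) * ∫ u in (0:ℝ)..√b, √a * exp (t * (a + u ^ 2)) / (a + u ^ 2) := by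
    rw [← intervalIntegral.integral_const_mul]
    apply intervalIntegral.integral_congr
    intro u _
    simp only []
    have e : exp (-(t * (b - u ^ 2))) = exp (-((a + b) * t)) * exp (t * (a + u ^ 2)) := by
      rw [← exp_add]; ring_nf
    rw [e]
    ring
  have h7 : ∫ u in (0:ℝ)..√a, √b / (b + u ^ 2) * exp (-(t * (a - u ^ 2)))
      = exp (-((a + b) * t)) * ∫ u in (0:ℝ)..√a, √b * exp (t * (b + u ^ 2)) / (b + u ^ 2) := by
    rw [← intervalIntegral.integral_const_mul]
    apply intervalIntegral.integral_congr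
    intro u _
    simp only []
    have e : exp (-(t * (a - u ^ 2))) = exp (-((a + b) * t)) * exp (t * (b + u ^ 2)) := by
      rw [← exp_add]; ring_nf
    rw [e]
    ring
  rw [h6, h7, h2, h3, h4]
  unfold qd
  have e8 : exp (-(a * t)) * exp (-(b * t)) = exp (-((a + b) * t)) := by
    rw [← exp_add]; ring_nf
  have hpi : √π * √π = π := Real.mul_self_sqrt pi_pos.le
  have hsp : 0 < √π := Real.sqrt_pos.mpr pi_pos
  have e9 : 2 / √π * exp (-(a * t)) * II (a * t) * (2 / √π * exp (-(b * t)) * II (b * t))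
      = 4 / (√π * √π) * (exp (-(a * t)) * exp (-(b * t))) * (II (a * t) * II (b * t)) := by
    field_simp
    ring
  rw [e9, hpi, e8, h1]
  have := pi_pos
  field_simp
  ring

end Pool.Agent.MP38d52fLib
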