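import Pool.Agent.MP38d52fLib.Series
set_option autoImplicit false

open Real Set MeasureTheory Filter Topology

namespace Pool.Agent.MP38d52fLib

theorem rho_zero (n : ℕ) : rho n 0 = 1 := by
  simp [rho]

theorem rho_eq {n : ℕ} (hn : 0 < n) {x : ℝ} (hx : 0 < x) :
    rho n x = (x * Real.GammaSeq x n)⁻¹ := by
  have hn' : (0 : ℝ) < n := by exact_mod_cast hn
  unfold rho Real.GammaSeq
  have h1 : ∏ j ∈ Finset.range (n + 1), (x + j)
      = x * (n.factorial * ∏ i ∈ Finset.range n, (1 + x / (i + 1))) := by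
    rw [Finset.prod_range_succ']
    have h2 : ∏ i ∈ Finset.range n, (x + ((i + 1 : ℕ) : ℝ))
        = n.factorial * ∏ i ∈ Finset.range n, (1 + x / (i + 1)) := by
      have h3 : (n.factorial : ℝ) = ∏ i ∈ Finset.range n, ((i : ℝ) + 1) := by
        rw [← Finset.prod_range_add_one_eq_factorial]
        push_cast
        rfl
      rw [h3, ← Finset.prod_mul_distrib]
      apply Finset.prod_congr rfl
      intro i _
      have : (0 : ℝ) < i + 1 := by positivity
      push_cast
      field_simp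
      ring
    rw [h2]
    simp
    ring
  rw [h1, rpow_neg hn'.le]
  have hp : 0 < ∏ i ∈ Finset.range n, (1 + x / ((i : ℝ) + 1)) :=
    Finset.prod_pos fun i _ => by positivity
  have hf : (0 : ℝ) < n.factorial := by exact_mod_cast Nat.factorial_pos n
  have hr : 0 < (n : ℝ) ^ x := by positivity
  field_simp

theorem rho_tendsto {x : ℝ} (hx : 0 ≤ x) :
    Tendsto (fun n => rho n x) atTop (𝓝 (Gamma (1 + x))⁻¹) := by
  rcases eq_or_lt_of_le hx with h | h
  · subst h
    simp only [add_zero, Gamma_one, inv_one]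
    apply tendsto_const_nhds.congr'
    filter_upwards [eventually_gt_atTop 0] with n hn
    exact (rho_zero n).symm
  · have h1 := (Real.GammaSeq_tendsto_Gamma x).const_mul x
    have h2 : x * Gamma x ≠ 0 := by have := Gamma_pos_of_pos h; positivity
    have h3 := h1.inv₀ h2
    rw [add_comm, Gamma_add_one h.ne']
    apply h3.congr'
    filter_upwards [eventually_gt_atTop 0] with n hn
    exact (rho_eq hn h).symm

theorem bern {γ y : ℝ} (h0 : 0 ≤ γ) (h1 : γ ≤ 1) (hy : 1 < y) :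
    1 + γ / y ≤ (y / (y - 1)) ^ γ := by
  have hy0 : 0 < y := by linarith
  have hb := rpow_one_add_le_one_add_mul_self (s := -(1 / y)) (p := γ)
    (by rw [neg_le_neg_iff, div_le_one hy0]; exact hy.le) h0 h1
  have hpos : 0 < 1 + -(1 / y) := by
    have : 1 / y < 1 := by rw [div_lt_one hy0]; exact hy
    linarith
  have e1 : y / (y - 1) = (1 + -(1 / y))⁻¹ := by
    have e0 : 1 + -(1 / y) = (y - 1) / y := by
      field_simp
      ring
    rw [e0, inv_div]
  rw [e1, inv_rpow hpos.le]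
  have hpos2 : 0 < (1 + -(1 / y)) ^ γ := by positivity
  rw [le_inv_comm₀ (by positivity) hpos2]
  refine hb.trans ?_
  rw [← one_div, le_div_iff₀ (by positivity)]
  have : 0 ≤ (γ / y) ^ 2 := sq_nonneg _
  have e2 : (1 + γ * -(1 / y)) * (1 + γ / y) = 1 - (γ / y) ^ 2 := by ring
  linarith

theorem prod_le {γ x : ℝ} (h0 : 0 ≤ γ) (h1 : γ ≤ 1) (hx : 0 < x) (n : ℕ) :
    ∏ i ∈ Finset.range n, (1 + γ / (i + 1 + x)) ≤ ((n + x) / x) ^ γ := by
  induction n with
  | zero => simp [hx.ne']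
  | succ n ih =>
    rw [Finset.prod_range_succ]
    have hn : (0 : ℝ) ≤ n := Nat.cast_nonneg n
    have h2 := bern h0 h1 (y := n + 1 + x) (by linarith)
    have e : (n : ℝ) + 1 + x - 1 = n + x := by ring
    rw [e] at h2
    calc (∏ i ∈ Finset.range n, (1 + γ / ((i : ℝ) + 1 + x))) * (1 + γ / (n + 1 + x))
        ≤ ((n + x) / x) ^ γ * ((n + 1 + x) / (n + x)) ^ γ := by gcongr
      _ = ((((n + 1 : ℕ) : ℝ) + x) / x) ^ γ := by
        rw [← mul_rpow (by positivity) (by positivity)]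
        congr 1
        push_cast
        have : (n : ℝ) + x ≠ 0 := by positivity
        field_simp

theorem rho_ratio {γ x : ℝ} (h0 : 0 ≤ γ) (h1 : γ ≤ 1) (hx : 0 < x) {n : ℕ} (hn : 0 < n) :
    rho n (x + γ) ≤ rho n x * (1 / x + 1 / n) ^ γ := by
  have hn' : (0 : ℝ) < n := by exact_mod_cast hn
  have h2 := prod_le h0 h1 hx n
  have e1 : ∏ i ∈ Finset.range n, (1 + (x + γ) / ((i : ℝ) + 1))
      = (∏ i ∈ Finset.range n, (1 + x / ((i : ℝ) + 1))) * ∏ i ∈ Finset.range n, (1 + γ / (i + 1 + x)) := by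
    rw [← Finset.prod_mul_distrib]
    apply Finset.prod_congr rfl
    intro i _
    have : (0 : ℝ) < i + 1 := by positivity
    have : (0 : ℝ) < i + 1 + x := by positivity
    field_simp
    ring
  unfold rho
  rw [e1]
  have hp : 0 < ∏ i ∈ Finset.range n, (1 + x / ((i : ℝ) + 1)) :=
    Finset.prod_pos fun i _ => by positivity
  have e2 : (n : ℝ) ^ (-(x + γ)) = (n : ℝ) ^ (-x) * (n : ℝ) ^ (-γ) := by
    rw [← rpow_add hn']
    congr 1
    ring
  have e3 : (1 / x + 1 / (n : ℝ)) ^ γ = (n : ℝ) ^ (-γ) * ((n + x) / x) ^ γ := by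
    rw [rpow_neg hn'.le, ← inv_rpow hn'.le, ← mul_rpow (by positivity) (by positivity)]
    congr 1
    field_simp
  rw [e2, e3]
  calc (n : ℝ) ^ (-x) * (n : ℝ) ^ (-γ) * ((∏ i ∈ Finset.range n, (1 + x / ((i : ℝ) + 1)))
        * ∏ i ∈ Finset.range n, (1 + γ / (i + 1 + x)))
      ≤ (n : ℝ) ^ (-x) * (n : ℝ) ^ (-γ) * ((∏ i ∈ Finset.range n, (1 + x / ((i : ℝ) + 1)))
        * ((n + x) / x) ^ γ) := by gcongr
    _ = _ := by ring

/-- uniform geometric domination -/
theorem dom {γ s t : ℝ} (h0 : 0 < γ) (h1 : γ ≤ 1) (hs : 0 ≤ s) (ht : 0 < t) :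
    ∃ b : ℕ → ℝ, Summable b ∧ ∀ᶠ n : ℕ in atTop, ∀ l : ℕ, t ^ l * rho n (γ * (l + s)) ≤ b l := by
  -- choose A
  have hlim : Tendsto (fun A : ℝ => t * (2 / A) ^ γ) atTop (𝓝 0) := by
    have h2 : Tendsto (fun A : ℝ => 2 / A) atTop (𝓝 0) := tendsto_const_nhds.div_atTop tendsto_id
    have h3 := (h2.rpow_const (Or.inr h0.le)).const_mul t
    rw [zero_rpow h0.ne', mul_zero] at h3
    exact h3
  obtain ⟨A, hA, hApos⟩ := ((hlim.eventually (gt_mem_nhds (show (0:ℝ) < 1 / 2 by norm_num))).and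
    (eventually_gt_atTop 0)).exists
  obtain ⟨l0, hl0⟩ := exists_nat_gt (A / γ)
  rw [div_lt_iff₀ h0] at hl0
  have hC : ∀ l : ℕ, ∃ C, ∀ n, rho n (γ * (l + s)) ≤ C := by
    intro l
    obtain ⟨C, hC⟩ := (rho_tendsto (x := γ * (l + s)) (by positivity)).bddAbove_range
    exact ⟨C, fun n => hC ⟨n, rfl⟩⟩
  choose C hC using hC
  refine ⟨fun l => if l < l0 then t ^ l * C l else t ^ l0 * C l0 * (1 / 2) ^ (l - l0), ?_, ?_⟩
  · rw [← summable_nat_add_iff l0]
    have : (fun l : ℕ => (if l + l0 < l0 then t ^ (l + l0) * C (l + l0)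
        else t ^ l0 * C l0 * (1 / 2) ^ (l + l0 - l0))) = fun l : ℕ => t ^ l0 * C l0 * (1 / 2 : ℝ) ^ l := by
      funext l
      rw [if_neg (by omega), Nat.add_sub_cancel]
    rw [this]
    exact (summable_geometric_of_lt_one (by norm_num) (by norm_num)).mul_left _
  · filter_upwards [eventually_ge_atTop (Nat.ceil A), eventually_gt_atTop 0] with n hn hn0 l
    have hnA : A ≤ n := (Nat.le_ceil A).trans (by exact_mod_cast hn)
    have hn' : (0 : ℝ) < n := by exact_mod_cast hn0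
    by_cases hl : l < l0
    · rw [if_pos hl]
      have := hC l n
      gcongr
    · rw [if_neg hl]
      push Not at hl
      have key : ∀ j : ℕ, t ^ (l0 + j) * rho n (γ * (((l0 + j : ℕ) : ℝ) + s))
          ≤ t ^ l0 * C l0 * (1 / 2) ^ j := by
        intro j
        induction j with
        | zero =>
          have := hC l0 n
          simp only [add_zero, pow_zero, mul_one]
          gcongr
        | succ j ih =>
          set x : ℝ := γ * (((l0 + j : ℕ) : ℝ) + s) with hx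
          have hxA : A ≤ x := by
            rw [hx]
            have : (l0 : ℝ) ≤ ((l0 + j : ℕ) : ℝ) := by exact_mod_cast Nat.le_add_right l0 j
            nlinarith
          have hx0 : 0 < x := by linarith
          have e : γ * (((l0 + (j + 1) : ℕ) : ℝ) + s) = x + γ := by
            rw [hx]; push_cast; ring
          rw [e]
          have h4 := rho_ratio h0.le h1 hx0 hn0
          have h5 : (1 / x + 1 / (n : ℝ)) ^ γ ≤ (2 / A) ^ γ := by
            apply rpow_le_rpow (by positivity) _ h0.le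
            have h6 : 1 / x ≤ 1 / A := one_div_le_one_div_of_le hApos hxA
            have h7 : 1 / (n : ℝ) ≤ 1 / A := one_div_le_one_div_of_le hApos hnA
            have h8 : 2 / A = 1 / A + 1 / A := by ring
            linarith
          have hr := rho_nonneg n hx0.le
          calc t ^ (l0 + (j + 1)) * rho n (x + γ)
              ≤ t ^ (l0 + (j + 1)) * (rho n x * (2 / A) ^ γ) := by
                gcongr
                exact h4.trans (by gcongr)
            _ = (t ^ (l0 + j) * rho n x) * (t * (2 / A) ^ γ) := by ring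
            _ ≤ (t ^ (l0 + j) * rho n x) * (1 / 2) := by gcongr
            _ ≤ (t ^ l0 * C l0 * (1 / 2) ^ j) * (1 / 2) := by gcongr
            _ = t ^ l0 * C l0 * (1 / 2) ^ (j + 1) := by ring
      have h9 := key (l - l0)
      have e9 : l0 + (l - l0) = l := by omega
      rw [e9] at h9
      exact h9

theorem series_tendsto {γ s t : ℝ} (h0 : 0 < γ) (h1 : γ ≤ 1) (hs : 0 ≤ s) (ht : 0 < t) :
    Tendsto (fun n : ℕ => ∑' l : ℕ, (-t) ^ l * rho n (γ * (l + s))) atTop
      (𝓝 (∑' l : ℕ, (-t) ^ l * (Gamma (1 + γ * (l + s)))⁻¹)) := by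
  obtain ⟨b, hb, hdom⟩ := dom h0 h1 hs ht
  apply tendsto_tsum_of_dominated_convergence hb
  · intro l
    exact (rho_tendsto (by positivity)).const_mul _
  · filter_upwards [hdom] with n hn l
    rw [norm_mul, norm_pow, norm_neg, Real.norm_eq_abs, Real.norm_eq_abs, abs_of_pos ht,
      abs_of_nonneg (rho_nonneg n (by positivity))]
    exact hn l

theorem series_summable {γ s t : ℝ} (h0 : 0 < γ) (h1 : γ ≤ 1) (hs : 0 ≤ s) (ht : 0 < t) :
    ∀ᶠ n : ℕ in atTop, Summable fun l : ℕ => t ^ l * rho n (γ * (l + s)) := by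
  obtain ⟨b, hb, hdom⟩ := dom h0 h1 hs ht
  filter_upwards [hdom] with n hn
  apply Summable.of_nonneg_of_le _ hn hb
  intro l
  have := rho_nonneg n (x := γ * (l + s)) (by positivity)
  positivity

theorem LL_tendsto {γ t : ℝ} (h0 : 0 < γ) (h1 : γ ≤ 1) (ht : 0 < t) :
    Tendsto (fun n : ℕ => LL (mu γ n ((n : ℝ) ^ γ)) t) atTop
      (𝓝 (∑' l : ℕ, (-t) ^ l * (Gamma (γ * l + 1))⁻¹)) := by
  have h2 := series_tendsto h0 h1 (le_refl (0:ℝ)) ht
  have e : (∑' l : ℕ, (-t) ^ l * (Gamma (1 + γ * (l + 0)))⁻¹)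
      = ∑' l : ℕ, (-t) ^ l * (Gamma (γ * l + 1))⁻¹ := by
    apply tsum_congr
    intro l
    rw [add_zero, add_comm]
  rw [e] at h2
  apply h2.congr'
  filter_upwards [series_summable h0 h1 (le_refl (0:ℝ)) ht, eventually_gt_atTop 0] with n hn hn0
  symm
  apply exchange h0 h1 hn0 (le_refl (0:ℝ)) ht _ _ hn
  intro a ha
  have h3 := exp_hasSum (-(a * t))
  refine h3.congr_fun ?_ |> fun h => h
  intro l
  rw [add_zero, add_zero, Gamma_nat_eq_factorial, rpow_natCast]
  rw [show -(a * t) = (-t) * a by ring, mul_pow]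
  ring

theorem QQ_tendsto {γ t : ℝ} (h0 : 0 < γ) (h1 : γ ≤ 1) (ht : 0 < t) :
    Tendsto (fun n : ℕ => QQ (mu γ n ((n : ℝ) ^ γ)) t) atTop
      (𝓝 (√t * ∑' l : ℕ, (-t) ^ l * (Gamma (γ * l + (1 + γ / 2)))⁻¹)) := by
  have h2 := (series_tendsto h0 h1 (show (0:ℝ) ≤ 1 / 2 by norm_num) ht).const_mul (√t)
  have e : (∑' l : ℕ, (-t) ^ l * (Gamma (1 + γ * (l + 1 / 2)))⁻¹)
      = ∑' l : ℕ, (-t) ^ l * (Gamma (γ * l + (1 + γ / 2)))⁻¹ := by
    apply tsum_congr
    intro l
    congr 3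
    ring
  rw [e] at h2
  apply h2.congr'
  filter_upwards [series_summable h0 h1 (show (0:ℝ) ≤ 1 / 2 by norm_num) ht,
    eventually_gt_atTop 0] with n hn hn0
  have h5 := exchange h0 h1 hn0 (show (0:ℝ) ≤ 1 / 2 by norm_num) ht (fun a => qd (a * t) / √t) (by
    intro a ha
    have h3 := (qd_hasSum (x := a * t) (by positivity)).div_const (√t)
    refine h3.congr_fun ?_ |> fun h => h
    intro l
    have hst : 0 < √t := Real.sqrt_pos.mpr ht
    rw [rpow_add ha, rpow_natCast, ← Real.sqrt_eq_rpow, Real.sqrt_mul ha.le]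
    rw [show -(a * t) = (-t) * a by ring, mul_pow]
    field_simp) hn
  rw [← h5]
  unfold QQ
  rw [integral_div]
  have hst : 0 < √t := Real.sqrt_pos.mpr ht
  rw [mul_div_cancel₀ _ hst.ne']

end Pool.Agent.MP38d52fLib
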