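import Pool.Agent.MP38d52fLib.General
set_option autoImplicit false

open Real Set MeasureTheory Filter Topology
open scoped ContDiff

namespace Pool.Agent.MP38d52fLib

/-- the weighted inequality, linear in the function -/
theorem fr_young {γ : ℝ} (h0 : 0 < γ) (h1 : γ ≤ 1) {t s a b : ℝ} (p : ℝ) (ht : 0 < t) (hs : 0 < s)
    (ha : 0 ≤ a) (hb : 0 ≤ b) (hab : a + b = 1) :
    fr γ (a * t + b * s) ≤ a * exp (p * b) * fr γ t + b * exp (-(p * a)) * fr γ s := by
  have hm : 0 < a * t + b * s := by
    rcases eq_or_lt_of_le ha with h | h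
    · have : b = 1 := by linarith
      subst this; rw [← h]; linarith
    · positivity
  have h2 := GG_fr_nonneg (S := Finset.range 3)
    (c := fun k => if k = 0 then a * exp (p * b) else if k = 1 then b * exp (-(p * a)) else -1)
    (s := fun k => if k = 0 then t else if k = 1 then s else a * t + b * s) h0 h1
    (by
      intro k _
      split_ifs
      · exact ht
      · exact hs
      · exact hm)
    (by
      intro x hx
      unfold GG
      rw [Finset.sum_range_succ, Finset.sum_range_succ, Finset.sum_range_one]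
      norm_num
      have hconv := convexOn_exp.2 (mem_univ (p * b - t * x)) (mem_univ (-(p * a) - s * x)) ha hb hab
      simp only [smul_eq_mul] at hconv
      have e1 : a * (p * b - t * x) + b * (-(p * a) - s * x) = -((a * t + b * s) * x) := by ring
      rw [e1] at hconv
      have e2 : exp (p * b - t * x) = exp (p * b) * exp (-(t * x)) := by
        rw [← exp_add]; ring_nf
      have e3 : exp (-(p * a) - s * x) = exp (-(p * a)) * exp (-(s * x)) := by
        rw [← exp_add]; ring_nf
      rw [e2, e3] at hconv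
      linarith)
  unfold GG at h2
  rw [Finset.sum_range_succ, Finset.sum_range_succ, Finset.sum_range_one] at h2
  norm_num at h2
  linarith

theorem fr_nonneg {γ : ℝ} {t : ℝ} (ht : 0 ≤ t) : 0 ≤ fr γ t := by
  unfold fr
  positivity

theorem fr_zero (γ : ℝ) : fr γ 0 = 1 := by
  unfold fr MLr
  have h : ∑' k : ℕ, (Gamma (γ * k + 1))⁻¹ * (-(0:ℝ)) ^ k = 1 := by
    rw [tsum_eq_single 0]
    · simp
    · intro k hk
      simp [hk]
  rw [h]
  simp

theorem fr_pos {γ : ℝ} (h0 : 0 < γ) (h1 : γ ≤ 1) {s : ℝ} (hs : 0 < s) : 0 < fr γ s := by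
  by_contra hneg
  have hz : fr γ s = 0 := le_antisymm (not_lt.mp hneg) (fr_nonneg hs.le)
  have hall : ∀ u ∈ Ioo 0 s, fr γ u = 0 := by
    intro u hu
    apply le_antisymm _ (fr_nonneg hu.1.le)
    have hden : 0 < s - u / 2 := by linarith [hu.1, hu.2]
    set a : ℝ := (s - u) / (s - u / 2) with ha
    set b : ℝ := (u / 2) / (s - u / 2) with hb
    have ha0 : 0 < a := div_pos (by linarith [hu.2]) hden
    have hb0 : 0 < b := div_pos (by linarith [hu.1]) hden
    have hab : a + b = 1 := by
      rw [ha, hb, ← add_div, div_eq_one_iff_eq hden.ne']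
      ring
    have hcomb : a * (u / 2) + b * s = u := by
      rw [ha, hb, div_mul_eq_mul_div, div_mul_eq_mul_div, ← add_div, div_eq_iff hden.ne']
      ring
    have hlim : Tendsto (fun p : ℝ => a * exp (p * b) * fr γ (u / 2)) atBot (𝓝 0) := by
      have h3 : Tendsto (fun p : ℝ => exp (p * b)) atBot (𝓝 0) :=
        tendsto_exp_atBot.comp (tendsto_id.atBot_mul_const hb0)
      have h4 := (h3.const_mul a).mul_const (fr γ (u / 2))
      simpa using h4
    apply ge_of_tendsto hlim
    filter_upwards with p
    have h5 := fr_young h0 h1 p (t := u / 2) (s := s) (by linarith [hu.1]) hs ha0.le hb0.le hab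
    rw [hcomb, hz, mul_zero, add_zero] at h5
    exact h5
  have hcont : Continuous (fr γ) := (fr_contDiff h0 h1).continuous
  have hl : Tendsto (fr γ) (𝓝[>] 0) (𝓝 (fr γ 0)) := hcont.continuousAt.mono_left nhdsWithin_le_nhds
  have hl2 : Tendsto (fr γ) (𝓝[>] 0) (𝓝 0) := by
    apply tendsto_const_nhds.congr'
    filter_upwards [Ioo_mem_nhdsGT hs] with u hu
    exact (hall u hu).symm
  have := tendsto_nhds_unique hl hl2
  rw [fr_zero] at this
  exact one_ne_zero this

theorem fr_logconvex {γ : ℝ} (h0 : 0 < γ) (h1 : γ ≤ 1) :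
    ConvexOn ℝ (Ioi 0) (fun t => log (fr γ t)) := by
  refine ⟨convex_Ioi 0, ?_⟩
  intro t ht s hs a b ha hb hab
  simp only [smul_eq_mul]
  have ht' : 0 < t := ht
  have hs' : 0 < s := hs
  have hft := fr_pos h0 h1 ht'
  have hfs := fr_pos h0 h1 hs'
  have hm : 0 < a * t + b * s := by
    rcases eq_or_lt_of_le ha with h | h
    · have : b = 1 := by linarith
      subst this; rw [← h]; linarith
    · positivity
  have h2 := fr_young h0 h1 (log (fr γ s) - log (fr γ t)) ht' hs' ha hb hab
  have e1 : exp ((log (fr γ s) - log (fr γ t)) * b) * fr γ t = exp (a * log (fr γ t) + b * log (fr γ s)) := by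
    conv_lhs => rw [← exp_log hft, log_exp, ← exp_add]
    congr 1
    have : a = 1 - b := by linarith
    rw [this]; ring
  have e2 : exp (-((log (fr γ s) - log (fr γ t)) * a)) * fr γ s = exp (a * log (fr γ t) + b * log (fr γ s)) := by
    conv_lhs => rw [← exp_log hfs, log_exp, ← exp_add]
    congr 1
    have : b = 1 - a := by linarith
    rw [this]; ring
  rw [mul_assoc, mul_assoc, e1, e2, ← add_mul, hab, one_mul] at h2
  have h3 := log_le_log (fr_pos h0 h1 hm) h2
  rwa [log_exp] at h3

end Pool.Agent.MP38d52fLib
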