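import Pool.Agent.MP38d52fLib.FinDiff
set_option autoImplicit false

open Real Set MeasureTheory

namespace Pool.Agent.MP38d52fLib

/-- Chinese restaurant weights: `wt γ n i` is the probability of `i+1` tables for `n+1` customers. -/
noncomputable def wt (γ : ℝ) : ℕ → ℕ → ℝ
  | 0, i => if i = 0 then 1 else 0
  | n + 1, i => wt γ n i * (1 - γ * (i + 1) / (n + 1))
      + (if i = 0 then 0 else wt γ n (i - 1) * (γ * i / (n + 1)))

theorem wt_zero_of_lt (γ : ℝ) (n : ℕ) : ∀ i, n < i → wt γ n i = 0 := by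
  induction n with
  | zero => intro i hi; simp [wt]; omega
  | succ n ih =>
    intro i hi
    have h1 := ih i (by omega)
    have h2 := ih (i - 1) (by omega)
    simp [wt, h1, h2]

theorem wt_nonneg {γ : ℝ} (h0 : 0 ≤ γ) (h1 : γ ≤ 1) (n : ℕ) : ∀ i, 0 ≤ wt γ n i := by
  induction n with
  | zero => intro i; simp only [wt]; split_ifs <;> norm_num
  | succ n ih =>
    intro i
    simp only [wt]
    have hn : (0 : ℝ) < n + 1 := by positivity
    have ha : 0 ≤ wt γ n i * (1 - γ * (i + 1) / (n + 1)) := by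
      rcases Nat.lt_or_ge n i with h | h
      · rw [wt_zero_of_lt γ n i h]; simp
      · apply mul_nonneg (ih i)
        rw [sub_nonneg, div_le_one hn]
        have : (i : ℝ) ≤ n := by exact_mod_cast h
        have h3 : (0 : ℝ) ≤ i := Nat.cast_nonneg i
        nlinarith
    have hb : 0 ≤ (if i = 0 then 0 else wt γ n (i - 1) * (γ * i / (n + 1))) := by
      split_ifs
      · exact le_rfl
      · have := ih (i - 1)
        positivity
    linarith

theorem sum_step (γ : ℝ) (n : ℕ) (φ : ℕ → ℝ) :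
    ∑ i ∈ Finset.range (n + 1 + 1), wt γ (n + 1) i * φ i
      = ∑ i ∈ Finset.range (n + 1), wt γ n i * ((1 - γ * (i + 1) / (n + 1)) * φ i
          + γ * (i + 1) / (n + 1) * φ (i + 1)) := by
  have h1 : ∑ i ∈ Finset.range (n + 1 + 1), wt γ (n + 1) i * φ i
      = ∑ i ∈ Finset.range (n + 1 + 1), wt γ n i * (1 - γ * (i + 1) / (n + 1)) * φ i
        + ∑ i ∈ Finset.range (n + 1 + 1),
            (if i = 0 then 0 else wt γ n (i - 1) * (γ * i / (n + 1))) * φ i := by
    rw [← Finset.sum_add_distrib]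
    apply Finset.sum_congr rfl
    intro i _
    simp only [wt]
    ring
  have h2 := Finset.sum_range_succ'
    (fun i => (if i = 0 then 0 else wt γ n (i - 1) * (γ * i / (n + 1))) * φ i) (n + 1)
  rw [h1, h2, Finset.sum_range_succ, wt_zero_of_lt γ n (n + 1) (by omega)]
  simp only [if_true, zero_mul, add_zero, Nat.add_eq_zero_iff, one_ne_zero, and_false, if_false,
    Nat.add_sub_cancel]
  rw [← Finset.sum_add_distrib]
  apply Finset.sum_congr rfl
  intro i _
  push_cast
  ring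

/-- rising factorial moments of the table count -/
theorem moment (γ s : ℝ) (hs : 0 ≤ s) (n : ℕ) :
    ∑ i ∈ Finset.range (n + 1), wt γ n i * (Gamma (i + 1 + s) / Gamma (i + 1))
      = Gamma (1 + s) * ∏ i ∈ Finset.range n, (1 + γ * s / (i + 1)) := by
  induction n with
  | zero => simp [wt]
  | succ n ih =>
    rw [sum_step γ n (fun i => Gamma (i + 1 + s) / Gamma (i + 1)), Finset.prod_range_succ,
      ← mul_assoc, ← ih, Finset.sum_mul]
    apply Finset.sum_congr rfl
    intro i _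
    have hi : (0 : ℝ) ≤ i := Nat.cast_nonneg i
    have e1 : Gamma (((i + 1 : ℕ) : ℝ) + 1 + s) = (i + 1 + s) * Gamma (i + 1 + s) := by
      have : ((i + 1 : ℕ) : ℝ) + 1 + s = (i + 1 + s) + 1 := by push_cast; ring
      rw [this, Gamma_add_one (by positivity)]
    have e2 : Gamma (((i + 1 : ℕ) : ℝ) + 1) = (i + 1) * Gamma (i + 1) := by
      have : ((i + 1 : ℕ) : ℝ) + 1 = (i + 1) + 1 := by push_cast; ring
      rw [this, Gamma_add_one (by positivity)]
    rw [e1, e2]
    have hg : 0 < Gamma ((i : ℝ) + 1) := Gamma_pos_of_pos (by positivity)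
    have hn : (0 : ℝ) < n + 1 := by positivity
    field_simp
    ring

/-- density of the mixture of gamma laws -/
noncomputable def dens (γ : ℝ) (n : ℕ) (N : ℝ) (x : ℝ) : ℝ :=
  ∑ i ∈ Finset.range (n + 1), wt γ n i * (N ^ (i + 1) / Gamma (i + 1)) * (x ^ (i : ℝ) * exp (-(N * x)))

theorem dens_nonneg {γ : ℝ} (h0 : 0 ≤ γ) (h1 : γ ≤ 1) (n : ℕ) {N : ℝ} (hN : 0 < N) {x : ℝ}
    (hx : 0 < x) : 0 ≤ dens γ n N x := by
  unfold dens
  apply Finset.sum_nonneg
  intro i _
  have := wt_nonneg h0 h1 n i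
  have : 0 < Gamma ((i : ℝ) + 1) := Gamma_pos_of_pos (by positivity)
  positivity

theorem integrableOn_base {N s : ℝ} (hN : 0 < N) (hs : -1 < s) :
    IntegrableOn (fun x : ℝ => x ^ s * exp (-(N * x))) (Ioi 0) := by
  have h := integrableOn_rpow_mul_exp_neg_mul_rpow (p := 1) (s := s) (b := N) hs one_pos hN
  refine h.congr_fun (fun x _ => ?_) measurableSet_Ioi
  simp

theorem integral_base {N s : ℝ} (hN : 0 < N) (hs : -1 < s) :
    ∫ x in Ioi (0:ℝ), x ^ s * exp (-(N * x)) = (1 / N) ^ (s + 1) * Gamma (s + 1) := by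
  have := Real.integral_rpow_mul_exp_neg_mul_Ioi (a := s + 1) (r := N) (by linarith) hN
  rw [add_sub_cancel_right] at this
  exact this

theorem dens_mul {γ : ℝ} (n : ℕ) {N : ℝ} {s : ℝ} {x : ℝ} (hx : 0 < x) :
    dens γ n N x * x ^ s = ∑ i ∈ Finset.range (n + 1),
      wt γ n i * (N ^ (i + 1) / Gamma (i + 1)) * (x ^ ((i : ℝ) + s) * exp (-(N * x))) := by
  unfold dens
  rw [Finset.sum_mul]
  apply Finset.sum_congr rfl
  intro i _
  rw [rpow_add hx]
  ring

theorem dens_integrable (γ : ℝ) (n : ℕ) {N : ℝ} (hN : 0 < N) {s : ℝ} (hs : 0 ≤ s) :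
    IntegrableOn (fun x => dens γ n N x * x ^ s) (Ioi 0) := by
  have h : IntegrableOn (fun x => ∑ i ∈ Finset.range (n + 1),
      wt γ n i * (N ^ (i + 1) / Gamma (i + 1)) * (x ^ ((i : ℝ) + s) * exp (-(N * x)))) (Ioi 0) := by
    apply integrable_finsetSum
    intro i _
    apply Integrable.const_mul
    apply integrableOn_base hN
    have : (0 : ℝ) ≤ i := Nat.cast_nonneg i
    linarith
  exact h.congr_fun (fun x hx => (dens_mul n hx).symm) measurableSet_Ioi

theorem dens_moment (γ : ℝ) (n : ℕ) {N : ℝ} (hN : 0 < N) {s : ℝ} (hs : 0 ≤ s) :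
    ∫ x in Ioi (0:ℝ), dens γ n N x * x ^ s
      = Gamma (1 + s) * (N ^ (-s) * ∏ i ∈ Finset.range n, (1 + γ * s / (i + 1))) := by
  rw [setIntegral_congr_fun measurableSet_Ioi (fun x hx => dens_mul n hx)]
  rw [integral_finsetSum]
  · have h := moment γ s hs n
    have e : Gamma (1 + s) * (N ^ (-s) * ∏ i ∈ Finset.range n, (1 + γ * s / (i + 1)))
        = N ^ (-s) * (Gamma (1 + s) * ∏ i ∈ Finset.range n, (1 + γ * s / (i + 1))) := by ring
    rw [e, ← h, Finset.mul_sum]
    apply Finset.sum_congr rfl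
    intro i _
    have hi : (0 : ℝ) ≤ i := Nat.cast_nonneg i
    rw [integral_const_mul, integral_base hN (by linarith)]
    have e2 : (1 / N) ^ ((i : ℝ) + s + 1) = N ^ (-s) * (1 / N ^ (i + 1)) := by
      rw [one_div, inv_rpow hN.le, ← rpow_neg hN.le, one_div, ← rpow_natCast N (i + 1),
        ← rpow_neg hN.le, ← rpow_add hN]
      congr 1
      push_cast
      ring
    have e3 : (i : ℝ) + s + 1 = i + 1 + s := by ring
    rw [e2, e3]
    have hg : 0 < Gamma ((i : ℝ) + 1) := Gamma_pos_of_pos (by positivity)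
    have hNp : 0 < N ^ (i + 1) := by positivity
    field_simp
  · intro i _
    apply Integrable.const_mul
    apply integrableOn_base hN
    have : (0 : ℝ) ≤ i := Nat.cast_nonneg i
    linarith

theorem dens_meas (γ : ℝ) (n : ℕ) (N : ℝ) : Measurable (dens γ n N) := by
  unfold dens
  fun_prop

/-- The mixture measure. -/
noncomputable def mu (γ : ℝ) (n : ℕ) (N : ℝ) : Measure ℝ :=
  (volume.restrict (Ioi 0)).withDensity (fun x => ENNReal.ofReal (dens γ n N x))

theorem mu_pos (γ : ℝ) (n : ℕ) (N : ℝ) : ∀ᵐ a ∂(mu γ n N), 0 < a := by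
  apply (withDensity_absolutelyContinuous _ _).ae_le
  exact ae_restrict_mem measurableSet_Ioi

theorem integral_mu {γ : ℝ} (h0 : 0 ≤ γ) (h1 : γ ≤ 1) (n : ℕ) {N : ℝ} (hN : 0 < N) (φ : ℝ → ℝ) :
    ∫ a, φ a ∂(mu γ n N) = ∫ x in Ioi (0:ℝ), dens γ n N x * φ x := by
  unfold mu
  rw [integral_withDensity_eq_integral_toReal_smul (by have := dens_meas γ n N; fun_prop)
    (ae_of_all _ fun x => ENNReal.ofReal_lt_top)]
  apply setIntegral_congr_fun measurableSet_Ioi
  intro x hx
  beta_reduce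
  rw [ENNReal.toReal_ofReal (dens_nonneg h0 h1 n hN hx), smul_eq_mul]

theorem integrable_mu {γ : ℝ} (h0 : 0 ≤ γ) (h1 : γ ≤ 1) (n : ℕ) {N : ℝ} (hN : 0 < N) {φ : ℝ → ℝ}
    (h : IntegrableOn (fun x => dens γ n N x * φ x) (Ioi 0)) : Integrable φ (mu γ n N) := by
  unfold mu
  rw [integrable_withDensity_iff_integrable_smul' (by have := dens_meas γ n N; fun_prop)
    (ae_of_all _ fun x => ENNReal.ofReal_lt_top)]
  refine h.congr_fun (fun x hx => ?_) measurableSet_Ioi
  beta_reduce
  rw [ENNReal.toReal_ofReal (dens_nonneg h0 h1 n hN hx), smul_eq_mul]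

instance (γ : ℝ) (n : ℕ) (N : ℝ) [Fact (0 < N)] : IsFiniteMeasure (mu γ n N) := by
  have hN : 0 < N := Fact.out
  unfold mu
  apply isFiniteMeasure_withDensity_ofReal
  have h := dens_integrable γ n hN (le_refl (0:ℝ))
  have h2 : IntegrableOn (dens γ n N) (Ioi 0) := h.congr_fun (fun x _ => by simp) measurableSet_Ioi
  exact h2.2

end Pool.Agent.MP38d52fLib
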