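import Pool.Agent.MP38d52fLib.Meas
set_option autoImplicit false

open Real Set MeasureTheory

namespace Pool.Agent.MP38d52fLib

/-- Wallis type integral -/
noncomputable def JJ (l : ℕ) : ℝ := ∫ u in (0:ℝ)..1, (1 - u ^ 2) ^ l

theorem JJ_succ (l : ℕ) : (2 * l + 3) * JJ (l + 1) = 2 * (l + 1) * JJ l := by
  have h := intervalIntegral.integral_eq_sub_of_hasDerivAt (a := 0) (b := 1)
    (f := fun u : ℝ => u * (1 - u ^ 2) ^ (l + 1))
    (f' := fun u => (2 * l + 3) * (1 - u ^ 2) ^ (l + 1) - 2 * (l + 1) * (1 - u ^ 2) ^ l) (fun x _ => by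
      have h1 : HasDerivAt (fun u : ℝ => 1 - u ^ 2) (-(2 * x)) x := by
        have := ((hasDerivAt_id x).fun_pow 2).const_sub 1
        simpa using this
      have h2 := (hasDerivAt_id x).fun_mul (h1.fun_pow (l + 1))
      refine HasDerivAt.congr_deriv h2 ?_
      simp only [id_eq, Nat.add_sub_cancel]
      push_cast
      ring)
    ((by fun_prop : Continuous _).intervalIntegrable _ _)
  rw [intervalIntegral.integral_sub, intervalIntegral.integral_const_mul,
    intervalIntegral.integral_const_mul] at h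
  · simp only [one_pow, sub_self, zero_mul, mul_zero, ne_eq, Nat.add_eq_zero_iff, one_ne_zero,
      and_false, not_false_eq_true, zero_pow, sub_zero] at h
    unfold JJ
    linarith
  · exact (by fun_prop : Continuous _).intervalIntegrable _ _
  · exact (by fun_prop : Continuous _).intervalIntegrable _ _

theorem JJ_eq (l : ℕ) : JJ l = √π / 2 * (l.factorial / Gamma (l + 1 + 1 / 2)) := by
  induction l with
  | zero =>
    have h1 : JJ 0 = 1 := by simp [JJ]
    have h2 : Gamma ((0 : ℕ) + 1 + 1 / 2 : ℝ) = √π / 2 := by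
      have e : ((0 : ℕ) + 1 + 1 / 2 : ℝ) = 1 / 2 + 1 := by push_cast; ring
      rw [e, Gamma_add_one (by norm_num), Gamma_one_half_eq]
      ring
    rw [h1, h2]
    have : 0 < √π := Real.sqrt_pos.mpr pi_pos
    simp
    field_simp
  | succ l ih =>
    have h := JJ_succ l
    have hl : (0 : ℝ) ≤ l := Nat.cast_nonneg l
    have e : Gamma (((l + 1 : ℕ) : ℝ) + 1 + 1 / 2) = (l + 1 + 1 / 2) * Gamma (l + 1 + 1 / 2) := by
      have : ((l + 1 : ℕ) : ℝ) + 1 + 1 / 2 = (l + 1 + 1 / 2) + 1 := by push_cast; ring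
      rw [this, Gamma_add_one (by positivity)]
    have hg : 0 < Gamma ((l : ℝ) + 1 + 1 / 2) := Gamma_pos_of_pos (by positivity)
    have hJ : JJ (l + 1) = 2 * (l + 1) * JJ l / (2 * l + 3) := by
      rw [eq_div_iff (by positivity)]
      linarith
    rw [hJ, ih, e, Nat.factorial_succ]
    push_cast
    field_simp
    ring

theorem exp_hasSum (y : ℝ) : HasSum (fun l : ℕ => y ^ l / l.factorial) (exp y) := by
  rw [Real.exp_eq_exp_ℝ]
  exact NormedSpace.expSeries_div_hasSum_exp y

theorem qd_hasSum {x : ℝ} (hx : 0 < x) :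
    HasSum (fun l : ℕ => √x * ((-x) ^ l / Gamma (l + 1 + 1 / 2))) (qd x) := by
  have h1 : qd x = 2 / √π * √x * ∫ u in (0:ℝ)..1, exp (-(x * (1 - u ^ 2))) := by
    unfold qd
    have h2 := II_eq (b := 1) hx
    rw [one_mul] at h2
    rw [h2]
    unfold PP
    rw [Real.sqrt_one]
    have h3 : ∫ u in (0:ℝ)..1, exp (-(x * (1 - u ^ 2)))
        = exp (-x) * ∫ u in (0:ℝ)..1, exp (x * u ^ 2) := by
      rw [← intervalIntegral.integral_const_mul]
      apply intervalIntegral.integral_congr
      intro u _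
      beta_reduce
      rw [← exp_add]
      ring_nf
    rw [h3]
    ring
  have h2 : HasSum (fun l : ℕ => ∫ u in (0:ℝ)..1, (-(x * (1 - u ^ 2))) ^ l / l.factorial)
      (∫ u in (0:ℝ)..1, exp (-(x * (1 - u ^ 2)))) := by
    apply intervalIntegral.hasSum_integral_of_dominated_convergence
      (bound := fun l _ => x ^ l / l.factorial)
    · intro l
      exact (by fun_prop : Continuous fun u : ℝ => (-(x * (1 - u ^ 2))) ^ l / (l.factorial : ℝ)).aestronglyMeasurable
    · intro l
      filter_upwards with u hu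
      rw [uIoc_of_le zero_le_one] at hu
      rw [norm_div, norm_pow, norm_neg, Real.norm_natCast, Real.norm_eq_abs]
      gcongr
      rw [abs_of_nonneg (by
        have : u ^ 2 ≤ 1 := by nlinarith [hu.1, hu.2]
        have : 0 ≤ 1 - u ^ 2 := by linarith
        positivity)]
      nlinarith [sq_nonneg u]
    · filter_upwards with u _
      exact Real.summable_pow_div_factorial x
    · exact intervalIntegrable_const
    · filter_upwards with u _
      exact exp_hasSum _
  have h3 := h2.mul_left (2 / √π * √x)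
  rw [← h1] at h3
  refine h3.congr_fun ?_ |> fun h => h
  intro l
  have h4 : ∫ u in (0:ℝ)..1, (-(x * (1 - u ^ 2))) ^ l / (l.factorial : ℝ)
      = (-x) ^ l / l.factorial * JJ l := by
    unfold JJ
    rw [← intervalIntegral.integral_const_mul]
    apply intervalIntegral.integral_congr
    intro u _
    beta_reduce
    rw [show -(x * (1 - u ^ 2)) = (-x) * (1 - u ^ 2) by ring, mul_pow]
    ring
  rw [h4, JJ_eq]
  have : 0 < √π := Real.sqrt_pos.mpr pi_pos
  have hg : 0 < Gamma ((l : ℝ) + 1 + 1 / 2) := Gamma_pos_of_pos (by positivity)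
  have hf : (0 : ℝ) < l.factorial := by exact_mod_cast Nat.factorial_pos l
  field_simp

/-- normalised moments -/
noncomputable def rho (n : ℕ) (x : ℝ) : ℝ := (n : ℝ) ^ (-x) * ∏ i ∈ Finset.range n, (1 + x / (i + 1))

theorem rho_nonneg (n : ℕ) {x : ℝ} (hx : 0 ≤ x) : 0 ≤ rho n x := by
  unfold rho
  have : 0 ≤ ∏ i ∈ Finset.range n, (1 + x / ((i : ℝ) + 1)) :=
    Finset.prod_nonneg fun i _ => by positivity
  positivity

theorem exchange {γ : ℝ} (h0 : 0 < γ) (h1 : γ ≤ 1) {n : ℕ} (hn : 0 < n) {s t : ℝ} (hs : 0 ≤ s)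
    (ht : 0 < t) (φ : ℝ → ℝ)
    (hφ : ∀ a, 0 < a → HasSum (fun l : ℕ => (-t) ^ l / Gamma (l + 1 + s) * a ^ ((l : ℝ) + s)) (φ a))
    (hsum : Summable fun l : ℕ => t ^ l * rho n (γ * (l + s))) :
    ∫ a, φ a ∂(mu γ n ((n : ℝ) ^ γ)) = ∑' l : ℕ, (-t) ^ l * rho n (γ * (l + s)) := by
  have hn' : (0 : ℝ) < n := by exact_mod_cast hn
  set N : ℝ := (n : ℝ) ^ γ with hN
  have hNpos : 0 < N := by positivity
  have hint : ∀ l : ℕ, Integrable (fun a : ℝ => a ^ ((l : ℝ) + s)) (mu γ n N) := by
    intro l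
    exact integrable_mu h0.le h1 n hNpos (dens_integrable γ n hNpos (by positivity))
  have hmom : ∀ l : ℕ, ∫ a, a ^ ((l : ℝ) + s) ∂(mu γ n N)
      = Gamma (l + 1 + s) * rho n (γ * (l + s)) := by
    intro l
    rw [integral_mu h0.le h1 n hNpos, dens_moment γ n hNpos (by positivity)]
    unfold rho
    have e1 : N ^ (-((l : ℝ) + s)) = (n : ℝ) ^ (-(γ * (l + s))) := by
      rw [hN, ← rpow_mul hn'.le]
      congr 1
      ring
    rw [e1]
    have e2 : 1 + ((l : ℝ) + s) = l + 1 + s := by ring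
    rw [e2]
  have hgam : ∀ l : ℕ, 0 < Gamma ((l : ℝ) + 1 + s) := fun l => Gamma_pos_of_pos (by positivity)
  have key := hasSum_integral_of_summable_integral_norm (μ := mu γ n N)
    (F := fun (l : ℕ) (a : ℝ) => (-t) ^ l / Gamma (l + 1 + s) * a ^ ((l : ℝ) + s))
    (fun l => (hint l).const_mul _) (by
      refine hsum.congr fun l => ?_
      have e : ∫ a, ‖(-t) ^ l / Gamma (l + 1 + s) * a ^ ((l : ℝ) + s)‖ ∂(mu γ n N)
          = ∫ a, t ^ l / Gamma (l + 1 + s) * a ^ ((l : ℝ) + s) ∂(mu γ n N) := by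
        apply integral_congr_ae
        filter_upwards [mu_pos γ n N] with a ha
        rw [norm_mul, norm_div, norm_pow, norm_neg, Real.norm_eq_abs, Real.norm_eq_abs,
          Real.norm_eq_abs, abs_of_pos ht, abs_of_pos (hgam l), abs_of_nonneg (by positivity)]
      rw [e, integral_const_mul, hmom]
      have := hgam l
      field_simp)
  have e2 : ∫ a, (∑' l : ℕ, (-t) ^ l / Gamma (l + 1 + s) * a ^ ((l : ℝ) + s)) ∂(mu γ n N)
      = ∫ a, φ a ∂(mu γ n N) := by
    apply integral_congr_ae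
    filter_upwards [mu_pos γ n N] with a ha
    exact (hφ a ha).tsum_eq
  rw [e2] at key
  rw [← key.tsum_eq]
  apply tsum_congr
  intro l
  rw [integral_const_mul, hmom]
  have := hgam l
  field_simp

end Pool.Agent.MP38d52fLib
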