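import Pool.Agent.MP38d52fLib.Limit
set_option autoImplicit false

open Real Set MeasureTheory Filter Topology
open scoped ContDiff

namespace Pool.Agent.MP38d52fLib

theorem DD_eq_fwdDiff (m : ℕ) (f : ℝ → ℝ) (t h : ℝ) :
    DD m f t h = (-1) ^ m * (fwdDiff h)^[m] f t := by
  rw [fwdDiff_iter_eq_sum_shift, Finset.mul_sum]
  unfold DD
  apply Finset.sum_congr rfl
  intro k hk
  have hk' : k ≤ m := by have := Finset.mem_range.mp hk; omega
  simp only [zsmul_eq_mul, Int.cast_mul, Int.cast_pow, Int.cast_neg, Int.cast_one,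
    Int.cast_natCast, nsmul_eq_mul]
  have e : (-1 : ℝ) ^ m * ((-1) ^ (m - k) * (m.choose k : ℝ) * f (t + k * h))
      = ((-1) ^ m * (-1) ^ (m - k)) * (m.choose k : ℝ) * f (t + k * h) := by ring
  rw [e]
  congr 2
  rw [← pow_add]
  have : m + (m - k) = k + 2 * (m - k) := by omega
  rw [this, pow_add, pow_mul]
  norm_num

theorem fwd_mvt (m : ℕ) : ∀ (f : ℝ → ℝ), ContDiff ℝ ∞ f → ∀ t h : ℝ, 0 < h →
    ∃ ξ ∈ Icc t (t + m * h), (fwdDiff h)^[m] f t = h ^ m * iteratedDeriv m f ξ := by
  induction m with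
  | zero =>
    intro f _ t h _
    exact ⟨t, by simp, by simp⟩
  | succ m ih =>
    intro f hf t h hh
    have hshift : ContDiff ℝ ∞ (fun s => f (s + h)) := hf.comp (by fun_prop)
    have hfd : fwdDiff h f = fun s => f (s + h) - f s := by
      funext s; rfl
    obtain ⟨ξ, hξ, e⟩ := ih (fwdDiff h f) (by rw [hfd]; exact hshift.sub hf) t h hh
    rw [Function.iterate_succ_apply, e]
    have e2 : iteratedDeriv m (fwdDiff h f) ξ = iteratedDeriv m f (ξ + h) - iteratedDeriv m f ξ := by
      rw [hfd, iteratedDeriv_fun_sub (hshift.contDiffAt.of_le (by exact_mod_cast le_top))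
        (hf.contDiffAt.of_le (by exact_mod_cast le_top))]
      rw [iteratedDeriv_comp_add_const]
    have hd : ∀ x, HasDerivAt (iteratedDeriv m f) (iteratedDeriv (m + 1) f x) x := by
      intro x
      rw [iteratedDeriv_succ]
      exact ((hf.differentiable_iteratedDeriv m (by exact_mod_cast ENat.coe_lt_top m)) x).hasDerivAt
    have hcont : Continuous (iteratedDeriv m f) := hf.continuous_iteratedDeriv m (by exact_mod_cast le_top)
    obtain ⟨c, hc, e3⟩ := exists_hasDerivAt_eq_slope (iteratedDeriv m f)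
      (iteratedDeriv (m + 1) f) (show ξ < ξ + h by linarith) hcont.continuousOn (fun x _ => hd x)
    refine ⟨c, ⟨by linarith [hξ.1, hc.1], ?_⟩, ?_⟩
    · have := hξ.2
      have := hc.2
      push_cast
      linarith
    · rw [e2]
      have e4 : ξ + h - ξ = h := by ring
      rw [e4, eq_div_iff hh.ne'] at e3
      rw [← e3]
      ring

/-- Finite difference criterion for the sign of derivatives. -/
theorem deriv_sign {f : ℝ → ℝ} (hf : ContDiff ℝ ∞ f)
    (hD : ∀ m t h, 0 < t → 0 < h → 0 ≤ DD m f t h) (m : ℕ) {t : ℝ} (ht : 0 < t) :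
    0 ≤ (-1) ^ m * iteratedDeriv m f t := by
  by_contra hneg
  push Not at hneg
  have hcont : Continuous (fun x => (-1) ^ m * iteratedDeriv m f x) :=
    continuous_const.mul (hf.continuous_iteratedDeriv m (by exact_mod_cast le_top))
  have hev := hcont.continuousAt.eventually (gt_mem_nhds hneg)
  rw [Metric.eventually_nhds_iff] at hev
  obtain ⟨δ, hδ, hball⟩ := hev
  set h : ℝ := δ / (2 * (m + 1)) with hh
  have hhpos : 0 < h := by positivity
  obtain ⟨ξ, hξ, e⟩ := fwd_mvt m f hf t h hhpos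
  have h1 := hD m t h ht hhpos
  rw [DD_eq_fwdDiff, e] at h1
  have hmh : (m : ℝ) * h < δ := by
    rw [hh]
    have hm : (0 : ℝ) ≤ m := Nat.cast_nonneg m
    rw [mul_div_assoc', div_lt_iff₀ (by positivity)]
    nlinarith
  have h2 := hball (y := ξ) (by
    rw [Real.dist_eq, abs_of_nonneg (by linarith [hξ.1])]
    linarith [hξ.2])
  have h3 : (-1 : ℝ) ^ m * (h ^ m * iteratedDeriv m f ξ) = h ^ m * ((-1) ^ m * iteratedDeriv m f ξ) := by
    ring
  rw [h3] at h1
  have h4 : 0 < h ^ m := by positivity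
  have h5 : h ^ m * ((-1) ^ m * iteratedDeriv m f ξ) < 0 := mul_neg_of_pos_of_neg h4 h2
  linarith

/-- real Mittag-Leffler series -/
noncomputable def MLr (a b x : ℝ) : ℝ := ∑' k : ℕ, (Gamma (a * k + b))⁻¹ * x ^ k

theorem gamma_ratio {γ x : ℝ} (h0 : 0 ≤ γ) (h1 : γ ≤ 1) (hx : 0 < x) :
    (Gamma (1 + (x + γ)))⁻¹ ≤ (Gamma (1 + x))⁻¹ * (1 / x) ^ γ := by
  have t1 := rho_tendsto (x := x + γ) (by positivity)
  have t2 : Tendsto (fun n : ℕ => rho n x * (1 / x + 1 / (n : ℝ)) ^ γ) atTop
      (𝓝 ((Gamma (1 + x))⁻¹ * (1 / x + 0) ^ γ)) := by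
    apply (rho_tendsto hx.le).mul
    apply Tendsto.rpow_const
    · exact tendsto_const_nhds.add tendsto_one_div_atTop_nhds_zero_nat
    · right; exact h0
  rw [add_zero] at t2
  apply le_of_tendsto_of_tendsto t1 t2
  filter_upwards [eventually_gt_atTop 0] with n hn
  exact rho_ratio h0 h1 hx hn

theorem MLr_contDiff {γ b : ℝ} (h0 : 0 < γ) (h1 : γ ≤ 1) (hb : 1 ≤ b) : ContDiff ℝ ∞ (MLr γ b) := by
  set c : ℕ → ℝ := fun k => (Gamma (γ * k + b))⁻¹ with hc
  have hpos : ∀ k : ℕ, 0 < Gamma (γ * k + b) := fun k => Gamma_pos_of_pos (by positivity)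
  have hrad : (FormalMultilinearSeries.ofScalars ℝ c).radius = ⊤ := by
    apply FormalMultilinearSeries.ofScalars_radius_eq_top_of_tendsto
    · exact Eventually.of_forall fun n => (inv_pos.mpr (hpos n)).ne'
    · have hlim : Tendsto (fun k : ℕ => (1 / (γ * k)) ^ γ) atTop (𝓝 0) := by
        have h2 : Tendsto (fun k : ℕ => γ * (k : ℝ)) atTop atTop :=
          tendsto_natCast_atTop_atTop.const_mul_atTop h0
        have h3 : Tendsto (fun k : ℕ => 1 / (γ * (k : ℝ))) atTop (𝓝 0) :=
          tendsto_const_nhds.div_atTop h2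
        have h4 := h3.rpow_const (p := γ) (Or.inr h0.le)
        rwa [zero_rpow h0.ne'] at h4
      apply squeeze_zero' (Eventually.of_forall fun k => by positivity) _ hlim
      filter_upwards [eventually_gt_atTop 0] with k hk
      have hk' : (0 : ℝ) < k := by exact_mod_cast hk
      have hx : 0 < γ * k + b - 1 := by nlinarith [mul_pos h0 hk']
      have h5 := gamma_ratio h0.le h1 hx
      have e1 : 1 + (γ * (k : ℝ) + b - 1 + γ) = γ * ((k + 1 : ℕ) : ℝ) + b := by push_cast; ring
      have e2 : 1 + (γ * (k : ℝ) + b - 1) = γ * k + b := by ring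
      rw [e1, e2] at h5
      simp only [hc, Nat.succ_eq_add_one]
      rw [Real.norm_eq_abs, Real.norm_eq_abs, abs_of_pos (inv_pos.mpr (hpos _)),
        abs_of_pos (inv_pos.mpr (hpos _)), div_le_iff₀ (inv_pos.mpr (hpos _))]
      refine h5.trans ?_
      rw [mul_comm]
      apply mul_le_mul_of_nonneg_right _ (inv_pos.mpr (hpos _)).le
      apply rpow_le_rpow (by positivity) _ h0.le
      apply one_div_le_one_div_of_le (by positivity)
      linarith
  have hfun : MLr γ b = FormalMultilinearSeries.ofScalarsSum (E := ℝ) c := by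
    funext x
    rw [FormalMultilinearSeries.ofScalars_sum_eq]
    rfl
  have hps := (FormalMultilinearSeries.ofScalars ℝ c).hasFPowerSeriesOnBall (by rw [hrad]; exact ENNReal.zero_lt_top)
  have han : AnalyticOnNhd ℝ (MLr γ b) univ := by
    rw [hfun]
    intro x _
    apply hps.analyticOnNhd
    rw [hrad]
    simp
  exact han.contDiff

end Pool.Agent.MP38d52fLib
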